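import Mathlib
import Pool.Agent.X47.DS4

/-!
# The polynomial Freiman-Ruzsa theorem for down-sets, in all dimensions

A down-set of `ℕ ^ d` is a finite set closed under decreasing coordinates.  We prove an inequality
for sumsets of down-sets, free of the dimension, and deduce the conclusion of the polynomial
Freiman-Ruzsa conjecture over torsion-free groups (in a strong form) for every finite subset of an
abelian group which is Freiman `2`-isomorphic to a down-set of some `ℕ ^ d`.
-/

set_option autoImplicit false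

namespace Pool.Agent.Results.MP_86f7a7_co.DownSets

open Finset Pointwise Pool.Agent.X47

/-- the progression `{a + n_1 v_1 + ... + n_r v_r : 0 ≤ n_i < N_i}` -/
def progression {Γ : Type*} [AddCommGroup Γ] (a : Γ) {r : ℕ} (v : Fin r → Γ) (N : Fin r → ℕ) :
    Set Γ :=
  {z | ∃ n : Fin r → ℕ, (∀ i, n i < N i) ∧ z = a + ∑ i, n i • v i}

theorem affine {Γ : Type*} [AddCommGroup Γ] (d : ℕ) (D : Finset (Fin d → ℕ))
    (hD : DS.IsDown D) (f : (Fin d → ℕ) → Γ)
    (hf : ∀ x ∈ D, ∀ y ∈ D, ∀ z ∈ D, ∀ w ∈ D, (f x + f y = f z + f w ↔ x + y = z + w)) :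
    ∃ θ : (Fin d → ℤ) →+ Γ, ∀ x ∈ D, f x = f 0 + θ (DS.cst x) := by
  let θ : (Fin d → ℤ) →+ Γ :=
    { toFun := fun w => ∑ i, w i • (f (Pi.single i 1) - f 0)
      map_zero' := by simp
      map_add' := by
        intro x y
        simp only [Pi.add_apply, add_smul, sum_add_distrib] }
  have hθ1 : ∀ i : Fin d, θ (DS.cst (Pi.single i 1)) = f (Pi.single i 1) - f 0 := by
    intro i
    show ∑ j, (((Pi.single i 1 : Fin d → ℕ) j : ℕ) : ℤ) • (f (Pi.single j 1) - f 0) = _
    rw [Finset.sum_eq_single i]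
    · simp
    · intro j _ hj
      rw [Pi.single_eq_of_ne hj]
      simp
    · intro h
      exact absurd (mem_univ i) h
  refine ⟨θ, ?_⟩
  -- induction on the sum of the coordinates
  have key : ∀ (n : ℕ) (x : Fin d → ℕ), ∑ i, x i = n → x ∈ D → f x = f 0 + θ (DS.cst x) := by
    intro n
    induction n with
    | zero =>
      intro x hx _
      have h0 : x = 0 := by
        funext i
        exact (sum_eq_zero_iff.1 hx) i (mem_univ i)
      have h1 : DS.cst (0 : Fin d → ℕ) = 0 := by
        funext i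
        simp [DS.cst]
      rw [h0, h1, map_zero, add_zero]
    | succ n ih =>
      intro x hx hxD
      obtain ⟨i, hi⟩ : ∃ i, x i ≠ 0 := by
        by_contra hno
        push Not at hno
        rw [sum_eq_zero (fun i _ => hno i)] at hx
        omega
      obtain ⟨y, hy⟩ : ∃ y : Fin d → ℕ, y = Function.update x i (x i - 1) := ⟨_, rfl⟩
      have hxy : x = y + Pi.single i 1 := by
        funext j
        rw [hy, Pi.add_apply]
        by_cases hj : j = i
        · subst hj
          rw [Function.update_self, Pi.single_eq_same]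
          omega
        · rw [Function.update_of_ne hj, Pi.single_eq_of_ne hj, add_zero]
      have hyx : y ≤ x := by
        intro j
        rw [hxy]
        exact Nat.le_add_right _ _
      have hex : (Pi.single i 1 : Fin d → ℕ) ≤ x := by
        intro j
        rw [hxy]
        exact Nat.le_add_left _ _
      have hyD : y ∈ D := hD x hxD y hyx
      have heD : (Pi.single i 1 : Fin d → ℕ) ∈ D := hD x hxD _ hex
      have h0D : (0 : Fin d → ℕ) ∈ D := hD x hxD 0 (fun i => Nat.zero_le _)
      have hys : ∑ j, y j = n := by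
        have h1 : ∑ j, x j = ∑ j, y j + ∑ j, (Pi.single i 1 : Fin d → ℕ) j := by
          rw [← sum_add_distrib]
          exact sum_congr rfl fun j _ => congrFun hxy j
        rw [hx, sum_pi_single'] at h1
        simp only [mem_univ, if_true] at h1
        omega
      have h1 := ih y hys hyD
      have h2 : f x + f 0 = f y + f (Pi.single i 1) :=
        (hf x hxD 0 h0D y hyD _ heD).2 (by rw [add_zero]; exact hxy)
      have h3 : DS.cst x = DS.cst y + DS.cst (Pi.single i 1) := by
        rw [← DS.cst_add, ← hxy]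
      rw [h3, map_add, hθ1]
      have h4 : f x = f y + f (Pi.single i 1) - f 0 := by rw [← h2]; abel
      rw [h4, h1]
      abel
  exact fun x hx => key _ x rfl hx

/-- **Sumsets of down-sets, and the polynomial Freiman-Ruzsa theorem for down-sets.**

(1) If `A`, `B` are non-empty down-sets of `ℕ ^ d` (any `d`), then there are boxes
`[0, a] ⊆ A`, `[0, b] ⊆ B` with `(|A| |B|)^5 ≤ |A + B|^8 |[0, a]| |[0, b]|`.

(2) Let `A` be a finite subset of an abelian group which is the image of a down-set `D` of `ℕ ^ d`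
(any `d`) under a Freiman isomorphism of order `2`, and suppose `|A + A| ≤ K |A|`.  Then there is a
proper progression `P ⊆ A` of rank at most `13 log K` with `|A| ≤ K ^ 4 |P|`, and `A` is covered by
at most `K ^ 5` translates of `P - P`. -/
theorem result :
    (∀ (d : ℕ) (A B : Finset (Fin d → ℕ)), A.Nonempty → B.Nonempty →
      (∀ x ∈ A, ∀ y, y ≤ x → y ∈ A) → (∀ x ∈ B, ∀ y, y ≤ x → y ∈ B) →
      ∃ a ∈ A, ∃ b ∈ B, (A.card * B.card) ^ 5 ≤
        (A + B).card ^ 8 * ((∏ i, (a i + 1)) * ∏ i, (b i + 1))) ∧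
    (∀ (Γ : Type*) [AddCommGroup Γ] [DecidableEq Γ] (d : ℕ) (D : Finset (Fin d → ℕ))
      (f : (Fin d → ℕ) → Γ) (A : Finset Γ) (K : ℝ), D.Nonempty →
      (∀ x ∈ D, ∀ y, y ≤ x → y ∈ D) →
      (∀ x ∈ D, ∀ y ∈ D, ∀ z ∈ D, ∀ w ∈ D, (f x + f y = f z + f w ↔ x + y = z + w)) →
      A = D.image f → ((A + A).card : ℝ) ≤ K * A.card →
      ∃ (r : ℕ) (a : Γ) (v : Fin r → Γ) (N : Fin r → ℕ) (T : Finset Γ),
        (r : ℝ) ≤ 13 * Real.log K ∧ (progression a v N).ncard = ∏ i, N i ∧
        progression a v N ⊆ A ∧ (A.card : ℝ) ≤ K ^ 4 * (progression a v N).ncard ∧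
        (T.card : ℝ) ≤ K ^ 5 ∧
        ∀ z ∈ A, ∃ t ∈ T, ∃ p ∈ progression a v N, ∃ q ∈ progression a v N,
          z = t + (p - q)) := by
  constructor
  · intro d A B hA hB hAd hBd
    obtain ⟨a, ha, ha2⟩ := exists_mem_eq_sup A hA DS.vol
    obtain ⟨b, hb, hb2⟩ := exists_mem_eq_sup B hB DS.vol
    refine ⟨a, ha, b, hb, ?_⟩
    have h := DS.main_ineq d A B hAd hBd
    unfold DS.V at h
    rw [ha2, hb2] at h
    exact h
  · intro Γ _ _ d D f A K hne hD hf hA hK
    obtain ⟨θ, hθ⟩ := affine d D hD f hf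
    have hA' : A = D.image (fun x => f 0 + θ (DS.cst x)) := by
      rw [hA]
      exact image_congr (fun x hx => hθ x hx)
    have hinj : Set.InjOn (fun x => θ (DS.cst x)) (D + D : Finset (Fin d → ℕ)) := by
      intro u hu u' hu' huu
      obtain ⟨x, hx, y, hy, rfl⟩ := mem_add.1 (mem_coe.1 hu)
      obtain ⟨z, hz, w, hw, rfl⟩ := mem_add.1 (mem_coe.1 hu')
      refine (hf x hx y hy z hz w hw).1 ?_
      simp only [DS.cst_add, map_add] at huu
      rw [hθ x hx, hθ y hy, hθ z hz, hθ w hw]
      have : f 0 + θ (DS.cst x) + (f 0 + θ (DS.cst y)) =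
          f 0 + f 0 + (θ (DS.cst x) + θ (DS.cst y)) := by abel
      rw [this, huu]
      abel
    exact DS.pfr_prog d D hD hne θ (f 0) hinj K A hA' hK

end Pool.Agent.Results.MP_86f7a7_co.DownSets
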