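import Mathlib
import Pool.Agent.X37.PS.Gen

set_option autoImplicit false

/-!
# The polynomial Freiman–Ruzsa conjecture: closure under products

For a finite set `A` in an abelian group let `κ(A) = |A + A| / |A|`, and say that `A` satisfies
`PFR C` if for some progression `P` of rank at most `C log κ(A)` and volume at most `κ(A)^C |A|` at
most `κ(A)^C` translates of `P` cover `A`.  We prove that this property is inherited, with the same
`C`, by products of any number of factors and their images under homomorphisms which are injective on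
the sumset of the product, and (with `K = |S + S| / |B|` in place of `κ`) by large subsets `B` of such
sets `S`.  It holds for the sets with `κ(A) ≤ K₀` in torsion-free groups, with
`C = 51000 (1 + log (1 + log (2 K₀)))`, and for the images of the down-sets of `ℕ ^ n`, `n` and `κ`
arbitrary, with `C = 13`.  So the conjecture holds for all products of sets of these two kinds, with
a constant which depends only on `K₀`.
-/

namespace Pool.Agent.Results.MP_86f7a7_co.ProductSets

open Finset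
open scoped Pointwise

universe u v w

/-- the progression `{a + ∑ n_i v_i : 0 ≤ n_i < N_i}` of rank `d` -/
def prog {Z : Type*} [AddCommGroup Z] {d : ℕ} (a : Z) (v : Fin d → Z) (N : Fin d → ℕ) : Set Z :=
  {z | ∃ n : Fin d → ℕ, (∀ i, n i < N i) ∧ z = a + ∑ i, n i • v i}

/-- the doubling constant `|A + A| / |A|` -/
noncomputable def κ {G : Type*} [AddCommGroup G] [DecidableEq G] (A : Finset G) : ℝ :=
  ((A + A).card : ℝ) / A.card

/-- `A` is not empty, and for some progression `P` of rank at most `C log κ(A)` and volume at most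
`κ(A) ^ C |A|` at most `κ(A) ^ C` translates of `P` cover `A`. -/
def PFR {G : Type*} [AddCommGroup G] [DecidableEq G] (C : ℝ) (A : Finset G) : Prop :=
  A.Nonempty ∧ ∃ (d : ℕ) (v : Fin d → G) (N : Fin d → ℕ) (T : Finset G),
    (d : ℝ) ≤ C * Real.log (κ A) ∧ (∀ i, 1 ≤ N i) ∧ ((∏ i, N i : ℕ) : ℝ) ≤ κ A ^ C * A.card ∧
    (T.card : ℝ) ≤ κ A ^ C ∧ (A : Set G) ⊆ ⋃ t ∈ T, prog t v N

/-- the exponent `51000 (1 + log (1 + log (2 K)))` -/
noncomputable def ex (K : ℝ) : ℝ := 51000 * (1 + Real.log (1 + Real.log (2 * K)))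

lemma cover_iff {Z : Type*} [AddCommGroup Z] {d : ℕ} (v : Fin d → Z) (N : Fin d → ℕ)
    (T B : Finset Z) : ((B : Set Z) ⊆ ⋃ t ∈ T, prog t v N) ↔
      ∀ b ∈ B, ∃ t ∈ T, ∃ n : Fin d → ℕ, (∀ i, n i < N i) ∧ b = t + ∑ i, n i • v i := by
  constructor
  · intro h b hb
    obtain ⟨t, ht, hbt⟩ := Set.mem_iUnion₂.1 (h hb)
    exact ⟨t, ht, hbt⟩
  · intro h b hb
    obtain ⟨t, ht, hbt⟩ := h b hb
    exact Set.mem_biUnion ht hbt

lemma pfr_iff {G : Type*} [AddCommGroup G] [DecidableEq G] (C : ℝ) (A : Finset G) :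
    PFR C A ↔ Pool.Agent.X37.PS.Good C A := by
  unfold PFR Pool.Agent.X37.PS.Good
  simp only [cover_iff]
  exact Iff.rfl

lemma prog_card {Z : Type*} [AddCommGroup Z] {d : ℕ} (a : Z) (v : Fin d → Z) (N : Fin d → ℕ) :
    (prog a v N).ncard ≤ ∏ i, N i := by
  classical
  have e : prog a v N = (((Fintype.piFinset fun i => Finset.range (N i)).image
      fun n => a + ∑ i, n i • v i : Finset Z) : Set Z) := by
    ext z
    simp only [prog, Set.mem_ofPred_eq, Finset.coe_image, Set.mem_image, Finset.mem_coe,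
      Fintype.mem_piFinset, Finset.mem_range]
    constructor
    · rintro ⟨n, h1, h2⟩
      exact ⟨n, h1, h2.symm⟩
    · rintro ⟨n, h1, h2⟩
      exact ⟨n, h1, h2.symm⟩
  rw [e, Set.ncard_coe_finset]
  refine Finset.card_image_le.trans (le_of_eq ?_)
  rw [Fintype.card_piFinset]
  simp

lemma subset_step {Z : Type*} [AddCommGroup Z] [DecidableEq Z] (C : ℝ) (hC : 0 ≤ C)
    (S B : Finset Z) (K : ℝ) (hS : PFR C S) (hB : B.Nonempty) (hBS : B ⊆ S)
    (hK : ((S + S).card : ℝ) ≤ K * B.card) :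
    ∃ (d : ℕ) (v : Fin d → Z) (N : Fin d → ℕ) (a : Z), (d : ℝ) ≤ C * Real.log K ∧
      ((prog a v N).ncard : ℝ) ≤ K ^ (C + 1) * B.card ∧
      (B.card : ℝ) ≤ K ^ C * ((B : Set Z) ∩ prog a v N).ncard := by
  obtain ⟨hSne, d, v, N, T, h1, h2, h3, h4, h5⟩ := hS
  have hSpos : (0 : ℝ) < S.card := by exact_mod_cast hSne.card_pos
  have hBpos : (0 : ℝ) < B.card := by exact_mod_cast hB.card_pos
  have hBSc : (B.card : ℝ) ≤ S.card := Nat.cast_le.2 (Finset.card_le_card hBS)
  have hSSc : (S.card : ℝ) ≤ (S + S).card := Nat.cast_le.2 (Finset.card_le_card_add_right hSne)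
  have hSK : (S.card : ℝ) ≤ K * B.card := hSSc.trans hK
  have hK1 : 1 ≤ K := by
    have h6 : 1 * (B.card : ℝ) ≤ K * B.card := by linarith
    exact le_of_mul_le_mul_right h6 hBpos
  have hκ1 : 1 ≤ κ S := by
    unfold κ
    rw [le_div_iff₀ hSpos, one_mul]
    exact hSSc
  have hκK : κ S ≤ K := by
    unfold κ
    rw [div_le_iff₀ hSpos]
    exact hK.trans (mul_le_mul_of_nonneg_left hBSc (by linarith))
  have hpow : κ S ^ C ≤ K ^ C := Real.rpow_le_rpow (by linarith) hκK hC
  have hcov : (B : Set Z) ⊆ ⋃ t ∈ T, prog t v N := (Finset.coe_subset.2 hBS).trans h5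
  have hTne : T.Nonempty := by
    obtain ⟨b, hb⟩ := hB
    obtain ⟨t, ht, -⟩ := Set.mem_iUnion₂.1 (hcov hb)
    exact ⟨t, ht⟩
  obtain ⟨a, ha, hmax⟩ := Finset.exists_max_image T
    (fun t => ((B : Set Z) ∩ prog t v N).ncard) hTne
  refine ⟨d, v, N, a, h1.trans ?_, ?_, ?_⟩
  · exact mul_le_mul_of_nonneg_left (Real.log_le_log (by linarith) hκK) hC
  · calc ((prog a v N).ncard : ℝ) ≤ ((∏ i, N i : ℕ) : ℝ) := Nat.cast_le.2 (prog_card a v N)
      _ ≤ κ S ^ C * S.card := h3
      _ ≤ K ^ C * (K * B.card) :=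
          mul_le_mul hpow hSK (Nat.cast_nonneg _) (Real.rpow_nonneg (by linarith) _)
      _ = K ^ (C + 1) * B.card := by
          rw [Real.rpow_add (by linarith), Real.rpow_one]
          ring
  · have hBsum : B.card ≤ ∑ t ∈ T, ((B : Set Z) ∩ prog t v N).ncard := by
      have e1 : (B : Set Z) = ⋃ t ∈ T, ((B : Set Z) ∩ prog t v N) := by
        rw [← Set.inter_iUnion₂]
        exact (Set.inter_eq_left.2 hcov).symm
      calc B.card = (B : Set Z).ncard := (Set.ncard_coe_finset B).symm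
        _ = (⋃ t ∈ T, ((B : Set Z) ∩ prog t v N)).ncard := by rw [← e1]
        _ ≤ _ := Finset.set_ncard_biUnion_le _ _
    have h6 : ∑ t ∈ T, ((B : Set Z) ∩ prog t v N).ncard ≤
        T.card * ((B : Set Z) ∩ prog a v N).ncard := by
      rw [← smul_eq_mul]
      exact Finset.sum_le_card_nsmul _ _ _ hmax
    have h7 : (B.card : ℝ) ≤ T.card * (((B : Set Z) ∩ prog a v N).ncard : ℝ) := by
      exact_mod_cast hBsum.trans h6
    exact h7.trans (mul_le_mul_of_nonneg_right (h4.trans hpow) (Nat.cast_nonneg _))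

/-- **The polynomial Freiman–Ruzsa conjecture: products.**
(1) Closure under products and homomorphic images. (2) Large subsets. (3) Bounded doubling.
(4) Down-sets of any dimension and doubling. -/
theorem result :
    (∀ (ι : Type w) [Fintype ι] [DecidableEq ι] (G : ι → Type u) [∀ i, AddCommGroup (G i)]
      [∀ i, DecidableEq (G i)] (Z : Type v) [AddCommGroup Z] [DecidableEq Z] (C : ℝ)
      (A : ∀ i, Finset (G i)) (π : (∀ i, G i) →+ Z) (c : Z),
      (∀ i, PFR C (A i)) →
      Set.InjOn π (↑(Fintype.piFinset A + Fintype.piFinset A) : Set (∀ i, G i)) →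
      PFR C ((Fintype.piFinset A).image fun x => c + π x)) ∧
    (∀ (Z : Type v) [AddCommGroup Z] [DecidableEq Z] (C : ℝ) (S B : Finset Z) (K : ℝ), 0 ≤ C →
      PFR C S → B.Nonempty → B ⊆ S → ((S + S).card : ℝ) ≤ K * B.card →
      ∃ (d : ℕ) (v : Fin d → Z) (N : Fin d → ℕ) (a : Z), (d : ℝ) ≤ C * Real.log K ∧
        ((prog a v N).ncard : ℝ) ≤ K ^ (C + 1) * B.card ∧
        (B.card : ℝ) ≤ K ^ C * ((B : Set Z) ∩ prog a v N).ncard) ∧
    (∀ (G : Type u) [AddCommGroup G] [DecidableEq G] (A : Finset G) (K₀ C : ℝ),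
      (∀ (n : ℕ) (x : G), n ≠ 0 → n • x = 0 → x = 0) → A.Nonempty →
      ((A + A).card : ℝ) ≤ K₀ * A.card → ex K₀ ≤ C → PFR C A) ∧
    (∀ (G : Type u) [AddCommGroup G] [DecidableEq G] (n : ℕ) (D : Finset (Fin n → ℕ))
      (θ : (Fin n → ℤ) →+ G) (g : G) (C : ℝ), D.Nonempty → (∀ x ∈ D, ∀ y, y ≤ x → y ∈ D) →
      Set.InjOn (fun x : Fin n → ℕ => θ fun i => (x i : ℤ)) (D + D : Finset (Fin n → ℕ)) →
      13 ≤ C → PFR C (D.image fun x => g + θ fun i => (x i : ℤ))) := by
  refine ⟨?_, ?_, ?_, ?_⟩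
  · intro ι _ _ G _ _ Z _ _ C A π c hA hπ
    simp only [pfr_iff] at hA ⊢
    have h := Pool.Agent.X37.PS.closure A hA π c hπ
    have hne : (Fintype.piFinset A).Nonempty := by
      rw [Fintype.piFinset_nonempty]
      exact fun i => (hA i).1
    exact ⟨hne.image _, h.2⟩
  · intro Z _ _ C S B K hC hS hB hBS hK
    exact subset_step C hC S B K hS hB hBS hK
  · intro G _ _ A K₀ C htf hA hK₀ hC
    rw [pfr_iff]
    exact (Pool.Agent.X37.PS.good_of_doubling htf hA hK₀).mono hC
  · intro G _ _ n D θ g C hne hD hθ hC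
    rw [pfr_iff]
    exact (Pool.Agent.X37.PS.good_of_down n D hD hne θ g hθ rfl).mono hC

end Pool.Agent.Results.MP_86f7a7_co.ProductSets
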